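import Pool.Agent.MP_961ca8_al.H15.Spec

/-!
Row GR: grading of `Aalg s`, central monomials, and the Taylor vanishing on the lines `X i = 0`.
-/

namespace Pool.Agent.MP_961ca8_al.H15

open MvPolynomial

section

variable {B : Type} [CommRing B]

lemma gr_uu_hom (s : B) (i : Fin 3) : (uu s i).IsHomogeneous 1 := by
  unfold uu
  exact (isHomogeneous_X B _).add ((isHomogeneous_X B _).C_mul s)

lemma gr_th_hom (s : B) (i : Fin 3) : (th s i).IsHomogeneous 4 := by
  unfold th
  have h1 : (uu s i ^ 3).IsHomogeneous 3 := by simpa using (gr_uu_hom s i).pow 3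
  have h2 : (uu s (i + 1) ^ 3).IsHomogeneous 3 := by simpa using (gr_uu_hom s (i + 1)).pow 3
  have h3 : ((X (i + 2) : P B) ^ 3).IsHomogeneous 3 := by
    simpa using (isHomogeneous_X B (i + 2)).pow 3
  have h4 : ((C s : P B) ^ 3 * (uu s (i + 1) ^ 3 - X (i + 2) ^ 3)).IsHomogeneous 3 := by
    rw [← C_pow]
    exact (h2.sub h3).C_mul _
  exact (isHomogeneous_X B (i + 2)).mul (h1.add h4)

lemma gr_hh_hom (i : Fin 3) : (hh i : P B).IsHomogeneous 4 := by
  unfold hh
  exact (((isHomogeneous_X B 0).mul (isHomogeneous_X B 1)).mul (isHomogeneous_X B 2)).mul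
    (isHomogeneous_X B i)

lemma gr_th_mem (s : B) (j i : Fin 3) : th s j ∈ Ideal.span {X i, uu s i ^ 3} := by
  have hc : ∀ i j : Fin 3, i = j ∨ i = j + 1 ∨ i = j + 2 := by decide
  have e1 : ∀ j : Fin 3, j + 1 + 1 = j + 2 := by decide
  have e2 : ∀ j : Fin 3, j + 1 + 2 = j := by decide
  rw [Ideal.mem_span_pair]
  rcases hc i j with h | h | h
  · subst h
    refine ⟨X (i + 2) * C s ^ 3 * (C s * (3 * X (i + 2) ^ 2 + 3 * C s * X (i + 2) * X i +
      C s ^ 2 * X i ^ 2)), X (i + 2), ?_⟩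
    unfold th
    have : uu s (i + 1) = X (i + 2) + C s * X i := by
      unfold uu
      rw [e1, e2]
    rw [this]
    ring
  · subst h
    refine ⟨X (j + 2) * (X (j + 1) ^ 2 + 3 * X (j + 1) * (C s * X (j + 2)) +
      3 * (C s * X (j + 2)) ^ 2), X (j + 2) * C s ^ 3, ?_⟩
    unfold th
    have : uu s j = X (j + 1) + C s * X (j + 2) := rfl
    rw [this]
    ring
  · subst h
    refine ⟨uu s j ^ 3 + C s ^ 3 * (uu s (j + 1) ^ 3 - X (j + 2) ^ 3), 0, ?_⟩
    unfold th
    ring

lemma gr_hh_mem (s : B) (j i : Fin 3) : hh j ∈ Ideal.span {X i, uu s i ^ 3} := by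
  have hX : (X i : P B) ∈ Ideal.span {X i, uu s i ^ 3} := Ideal.subset_span (by simp)
  have hd : (X i : P B) ∣ hh j := by
    unfold hh
    refine Dvd.dvd.mul_right ?_ _
    fin_cases i
    · exact Dvd.dvd.mul_right (Dvd.intro _ rfl) _
    · exact Dvd.dvd.mul_right (Dvd.intro_left _ rfl) _
    · exact Dvd.intro_left _ rfl
  obtain ⟨c, hc⟩ := hd
  rw [hc]
  exact Ideal.mul_mem_right _ _ hX

lemma gr_closure (s : B) (g : P B)
    (hg : g ∈ Submonoid.closure (Set.range (th s) ∪ Set.range (hh (B := B)))) :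
    ∃ n : ℕ, g ∈ Aalg s ∧ g.IsHomogeneous (4 * n) ∧ ∀ i, g ∈ Q s i n := by
  induction hg using Submonoid.closure_induction with
  | mem x hx =>
    refine ⟨1, Algebra.subset_adjoin hx, ?_, ?_⟩
    · rcases hx with ⟨j, rfl⟩ | ⟨j, rfl⟩
      · exact gr_th_hom s j
      · exact gr_hh_hom j
    · intro i
      unfold Q
      rw [pow_one]
      rcases hx with ⟨j, rfl⟩ | ⟨j, rfl⟩
      · exact gr_th_mem s j i
      · exact gr_hh_mem s j i
  | one =>
    refine ⟨0, one_mem _, isHomogeneous_one _ _, ?_⟩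
    intro i
    unfold Q
    simp
  | mul x y _ _ hx hy =>
    obtain ⟨m, hx1, hx2, hx3⟩ := hx
    obtain ⟨n, hy1, hy2, hy3⟩ := hy
    refine ⟨m + n, mul_mem hx1 hy1, ?_, ?_⟩
    · rw [mul_add]
      exact hx2.mul hy2
    · intro i
      unfold Q
      rw [pow_add]
      exact Ideal.mul_mem_mul (hx3 i) (hy3 i)

end

theorem gr : GrStmt := by
  intro B _ s f hf d
  have hf' : f ∈ Submodule.span B
      (Submonoid.closure (Set.range (th s) ∪ Set.range (hh (B := B))) : Set (P B)) := by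
    rw [← Algebra.adjoin_eq_span]
    exact hf
  clear hf
  induction hf' using Submodule.span_induction with
  | mem g hg =>
    obtain ⟨m, h1, h2, h3⟩ := gr_closure s g hg
    have hc : homogeneousComponent d g = if d = 4 * m then g else 0 :=
      homogeneousComponent_of_mem h2
    rw [hc]
    refine ⟨?_, ?_, ?_⟩
    · split_ifs
      · exact h1
      · exact zero_mem _
    · intro hd
      rw [if_neg]
      rintro rfl
      exact hd (Dvd.intro _ rfl)
    · intro n i hn
      split_ifs with h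
      · have : n = m := by omega
        rw [this]
        exact h3 i
      · exact zero_mem _
  | zero =>
    rw [map_zero]
    exact ⟨zero_mem _, fun _ => rfl, fun _ _ _ => zero_mem _⟩
  | add x y _ _ hx hy =>
    rw [map_add]
    refine ⟨add_mem hx.1 hy.1, fun h => ?_, fun n i h => add_mem (hx.2.2 n i h) (hy.2.2 n i h)⟩
    rw [hx.2.1 h, hy.2.1 h, add_zero]
  | smul c x _ hx =>
    rw [map_smul]
    refine ⟨Subalgebra.smul_mem _ hx.1 c, fun h => ?_, fun n i h => ?_⟩
    · rw [hx.2.1 h, smul_zero]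
    · rw [smul_eq_C_mul]
      exact Ideal.mul_mem_left _ _ (hx.2.2 n i h)

theorem mon : MonStmt := by
  intro B _ s n a hsum hle
  have h0 := hle 0
  have h1 := hle 1
  have h2 := hle 2
  have hm : (monomial a (1 : B) : P B) = X 0 ^ a 0 * X 1 ^ a 1 * X 2 ^ a 2 := by
    rw [monomial_eq, Finsupp.prod_fintype _ _ (by simp), Fin.prod_univ_three]
    simp
  obtain ⟨b0, hb0⟩ := Nat.exists_eq_add_of_le h0
  obtain ⟨b1, hb1⟩ := Nat.exists_eq_add_of_le h1
  obtain ⟨b2, hb2⟩ := Nat.exists_eq_add_of_le h2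
  have hn : n = b0 + b1 + b2 := by omega
  have he : (monomial a (1 : B) : P B) = hh 0 ^ b0 * hh 1 ^ b1 * hh 2 ^ b2 := by
    rw [hm, hb0, hb1, hb2, hn]
    unfold hh
    ring
  have hmem : ∀ i, (hh i : P B) ∈ Aalg s := fun i =>
    Algebra.subset_adjoin (Or.inr ⟨i, rfl⟩)
  rw [he]
  exact mul_mem (mul_mem (pow_mem (hmem 0) _) (pow_mem (hmem 1) _)) (pow_mem (hmem 2) _)

section

variable {B : Type} [CommRing B]

/-- Restriction to the line `X i = 0` in the chart `X (i+2) = 1`. -/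
noncomputable def grEv (i : Fin 3) : P B →ₐ[B] Polynomial B :=
  aeval fun k => if k = i then 0 else if k = i + 1 then Polynomial.X else 1

lemma grEv_X0 (i : Fin 3) : grEv i (X i : P B) = 0 := by
  simp [grEv]

lemma grEv_X1 (i : Fin 3) : grEv i (X (i + 1) : P B) = Polynomial.X := by
  have : ∀ i : Fin 3, i + 1 ≠ i := by decide
  simp [grEv, this]

lemma grEv_X2 (i : Fin 3) : grEv i (X (i + 2) : P B) = 1 := by
  have h1 : ∀ i : Fin 3, i + 2 ≠ i := by decide
  have h2 : ∀ i : Fin 3, i + 2 ≠ i + 1 := by decide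
  unfold grEv
  rw [aeval_X, if_neg (h1 i), if_neg (h2 i)]

lemma grEv_uu (s : B) (i : Fin 3) : grEv i (uu s i) = Polynomial.X + Polynomial.C s := by
  unfold uu
  rw [map_add, map_mul, grEv_X1, grEv_X2, mul_one]
  simp [grEv]

lemma grEv_Q (s : B) (i : Fin 3) (g : P B) (hg : g ∈ Q s i 2) :
    (Polynomial.X + Polynomial.C s) ^ 6 ∣ grEv i g := by
  have h1 : Ideal.map (grEv i : P B →ₐ[B] Polynomial B) (Ideal.span {X i, uu s i ^ 3}) ≤
      Ideal.span {(Polynomial.X + Polynomial.C s) ^ 3} := by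
    rw [Ideal.map_span, Ideal.span_le]
    rintro _ ⟨x, hx, rfl⟩
    rcases hx with rfl | rfl
    · rw [grEv_X0]
      exact zero_mem _
    · rw [map_pow, grEv_uu]
      exact Ideal.subset_span rfl
  have h2 : grEv i g ∈ Ideal.map (grEv i : P B →ₐ[B] Polynomial B) (Q s i 2) :=
    Ideal.mem_map_of_mem _ hg
  unfold Q at h2
  rw [Ideal.map_pow] at h2
  have h3 := Ideal.pow_right_mono h1 2 h2
  rw [Ideal.span_singleton_pow, Ideal.mem_span_singleton, ← pow_mul] at h3
  exact h3

lemma gr_prod_three (i : Fin 3) {M : Type} [CommMonoid M] (F : Fin 3 → M) :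
    ∏ k, F k = F i * F (i + 1) * F (i + 2) := by
  rw [Fin.prod_univ_three]
  fin_cases i
  · rfl
  · show F 0 * F 1 * F 2 = F 1 * F 2 * F 0
    ac_rfl
  · show F 0 * F 1 * F 2 = F 2 * F 0 * F 1
    ac_rfl

lemma gr_sum_three (i : Fin 3) (F : Fin 3 → ℕ) :
    ∑ k, F k = F i + F (i + 1) + F (i + 2) := by
  rw [Fin.sum_univ_three]
  fin_cases i
  · rfl
  · show F 0 + F 1 + F 2 = F 1 + F 2 + F 0
    omega
  · show F 0 + F 1 + F 2 = F 2 + F 0 + F 1
    omega

lemma grEv_monomial (i : Fin 3) (a : Fin 3 →₀ ℕ) (c : B) :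
    grEv i (monomial a c : P B) =
      if a i = 0 then Polynomial.monomial (a (i + 1)) c else 0 := by
  have hm : (monomial a c : P B) =
      C c * (X i ^ a i * X (i + 1) ^ a (i + 1) * X (i + 2) ^ a (i + 2)) := by
    rw [monomial_eq, Finsupp.prod_fintype _ _ (by simp), gr_prod_three i]
  have hC : grEv i (C c : P B) = Polynomial.C c := by simp [grEv]
  rw [hm, map_mul, map_mul, map_mul, map_pow, map_pow, map_pow, grEv_X0, grEv_X1, grEv_X2, hC]
  split_ifs with h
  · rw [h, pow_zero, one_mul, one_pow, mul_one, Polynomial.C_mul_X_pow_eq_monomial]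
  · rw [zero_pow h]
    simp

lemma gr_ex_apply (i : Fin 3) (a b c : ℕ) :
    ex i a b c i = a ∧ ex i a b c (i + 1) = b ∧ ex i a b c (i + 2) = c := by
  fin_cases i <;> simp [ex]

lemma gr_ext (i : Fin 3) (a b : Fin 3 →₀ ℕ) (h0 : a i = b i) (h1 : a (i + 1) = b (i + 1))
    (h2 : a (i + 2) = b (i + 2)) : a = b := by
  have hc : ∀ i j : Fin 3, j = i ∨ j = i + 1 ∨ j = i + 2 := by decide
  ext j
  rcases hc i j with h | h | h <;> rw [h] <;> assumption

lemma gr_deg (i : Fin 3) (g : P B) (D : ℕ) (hg : g.IsHomogeneous D) (a : Fin 3 →₀ ℕ)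
    (ha : coeff a g ≠ 0) : a i + a (i + 1) + a (i + 2) = D := by
  have h := hg ha
  rw [← gr_sum_three i a, ← h, Finsupp.weight_apply, Finsupp.sum_fintype _ _ (by simp)]
  simp

lemma grEv_coeff (i : Fin 3) (g : P B) (hg : g.IsHomogeneous 8) (n : ℕ) :
    (grEv i g).coeff n = if n ≤ 8 then coeff (ex i 0 n (8 - n)) g else 0 := by
  classical
  conv_lhs => rw [g.as_sum, map_sum, Polynomial.finsetSum_coeff]
  have key : ∀ a ∈ g.support, (grEv i (monomial a (coeff a g) : P B)).coeff n =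
      if n ≤ 8 ∧ a = ex i 0 n (8 - n) then coeff a g else 0 := by
    intro a ha
    have hd := gr_deg i g 8 hg a (mem_support_iff.mp ha)
    obtain ⟨x0, x1, x2⟩ := gr_ex_apply i 0 n (8 - n)
    rw [grEv_monomial]
    by_cases h : n ≤ 8 ∧ a = ex i 0 n (8 - n)
    · rw [if_pos h]
      have h0 : a i = 0 := by rw [h.2, x0]
      have h1 : a (i + 1) = n := by rw [h.2, x1]
      rw [if_pos h0, h1, Polynomial.coeff_monomial, if_pos rfl]
    · rw [if_neg h]
      split_ifs with h0
      · rw [Polynomial.coeff_monomial, if_neg]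
        intro h1
        apply h
        refine ⟨by omega, gr_ext i _ _ ?_ ?_ ?_⟩ <;> omega
      · simp
  rw [Finset.sum_congr rfl key]
  by_cases hn : n ≤ 8
  · simp only [hn, true_and, if_true]
    rw [Finset.sum_ite_eq']
    split_ifs with h
    · rfl
    · exact (notMem_support_iff.mp h).symm
  · simp [hn]

end

theorem tay : TayStmt := by
  intro B _ s r hr i j hj
  obtain ⟨-, -, hQ⟩ := gr B s r hr 8
  have hQ' := hQ 2 i rfl
  set g := homogeneousComponent 8 r with hgdef
  have hg : g.IsHomogeneous 8 := homogeneousComponent_isHomogeneous 8 r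
  obtain ⟨h, hh'⟩ := grEv_Q s i g hQ'
  have ht : Polynomial.X ^ 6 ∣ Polynomial.taylor (-s) (grEv i g) := by
    rw [hh', Polynomial.taylor_mul, Polynomial.taylor_pow]
    refine Dvd.dvd.mul_right ?_ _
    simp
  have h0 := Polynomial.X_pow_dvd_iff.mp ht j (by omega)
  have hdeg : (grEv i g).natDegree < 9 := by
    have : (grEv i g).natDegree ≤ 8 := by
      rw [Polynomial.natDegree_le_iff_coeff_eq_zero]
      intro N hN
      rw [grEv_coeff i g hg, if_neg (by omega)]
    omega
  rw [Polynomial.taylor_coeff, Polynomial.hasseDeriv_apply,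
    Polynomial.sum_over_range' _ (by simp) 9 hdeg, Polynomial.eval_finsetSum] at h0
  rw [← h0]
  refine Finset.sum_congr rfl fun n hn => ?_
  have hn8 : n ≤ 8 := by
    have := Finset.mem_range.mp hn
    omega
  obtain ⟨x0, x1, x2⟩ := gr_ex_apply i 0 n (8 - n)
  have hdg : (ex i 0 n (8 - n)).degree = 8 := by
    rw [Finsupp.degree_eq_sum, gr_sum_three i, x0, x1, x2]
    omega
  rw [grEv_coeff i g hg, if_pos hn8, hgdef, coeff_homogeneousComponent, if_pos hdg,
    Polynomial.eval_monomial]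
  ring

end Pool.Agent.MP_961ca8_al.H15
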